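import Pool.Agent.Lib.MP_529d88_nt.ND.U9

set_option autoImplicit false

namespace Pool.Agent.Results.MP_529d88_nt.AlmostBounded

/-- Almost all orbits of the 3x+1 map attain almost bounded values, in natural density and within the
expected time: for all `ε > 0` and `0 < c < 1/2` there is `C` such that for every integer `N ≥ 2` and
every real `x ≥ 1`, at most `C x (log N) ^ (-c)` positive integers `n ≤ x` satisfy `T^i(n) > N` for all
integers `0 ≤ i ≤ (2 / log (4/3) + ε) log x`. -/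
theorem result :
    ∀ ε c : ℝ, 0 < ε → 0 < c → c < 1 / 2 → ∃ C : ℝ, 0 < C ∧ ∀ (N : ℕ) (x : ℝ), 2 ≤ N → 1 ≤ x →
      ({n : ℕ | 1 ≤ n ∧ (n : ℝ) ≤ x ∧ ∀ i : ℕ,
        (i : ℝ) ≤ (2 / Real.log (4 / 3) + ε) * Real.log x →
          N < (fun m : ℕ => if m % 2 = 0 then m / 2 else (3 * m + 1) / 2)^[i] n}.ncard : ℝ) ≤
        C * x * Real.log N ^ (-c) := by
  classical
  intro ε c hε hc hc1
  obtain ⟨C, hC, h⟩ := Pool.Agent.Syr66.almost_bounded ε c hε hc hc1
  refine ⟨C, hC, fun N x hN hx => ?_⟩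
  refine le_trans (le_of_eq ?_) (h N x hN hx)
  have hT : (fun m : ℕ => if m % 2 = 0 then m / 2 else (3 * m + 1) / 2) = Pool.Agent.Syr66.T := by
    funext m; rfl
  rw [hT]
  congr 1
  rw [← Set.ncard_coe_finset]
  congr 1
  ext n
  simp only [Set.mem_ofPred_eq, Finset.coe_filter, Finset.mem_Icc]
  rw [Nat.le_floor_iff (by linarith)]
  tauto

end Pool.Agent.Results.MP_529d88_nt.AlmostBounded
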