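import Pool.Agent.Lib.MP_529d88_nt.ND.V12

set_option autoImplicit false

namespace Pool.Agent.Results.MP_529d88_nt.GaussianLaw

/-- If the 3x+1 conjecture holds, then the total stopping time is asymptotically normal in natural
density: with `μ = 2 / log (4/3)` and `s = (log 3 / 2) μ ^ (3/2)`, for every real `u` the proportion of
the `n ≤ x` with `σ_∞(n) ≤ μ log x + u s √(log x)` tends to the standard normal distribution function
at `u`. -/
theorem result :
    (∀ n : ℕ, 1 ≤ n → ∃ k : ℕ,
      (fun m : ℕ => if m % 2 = 0 then m / 2 else (3 * m + 1) / 2)^[k] n = 1) →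
    ∀ u : ℝ, Filter.Tendsto (fun x : ℕ =>
      ({n : ℕ | 1 ≤ n ∧ n ≤ x ∧
        ((sInf {k : ℕ | (fun m : ℕ => if m % 2 = 0 then m / 2 else (3 * m + 1) / 2)^[k] n = 1} : ℕ)
          : ℝ) ≤ 2 / Real.log (4 / 3) * Real.log x +
            u * (Real.log 3 / 2 * (2 / Real.log (4 / 3)) ^ (3 / 2 : ℝ)) * Real.sqrt (Real.log x)}.ncard
        : ℝ) / x)
      Filter.atTop (nhds ((ProbabilityTheory.gaussianReal 0 1 (Set.Iic u)).toReal)) := by
  classical
  intro h u
  have h1 := Pool.Agent.Syr66.gaussian_law h u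
  refine h1.congr fun x => ?_
  congr 2
  rw [← Set.ncard_coe_finset]
  congr 1
  ext n
  simp only [Set.mem_ofPred_eq, Finset.coe_filter, Finset.mem_Icc, and_assoc]
  rfl

end Pool.Agent.Results.MP_529d88_nt.GaussianLaw
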