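import Pool.Agent.Lib.MP_529d88_nt.K2

set_option autoImplicit false

namespace Pool.Agent.Results.MP_529d88_nt.TrajectoryLaw

/-- Trajectory law with a power saving for the 3x+1 map `T`: for every `ε > 0` there are
`δ > 0` and `C > 0` such that for every real `x ≥ 1`, at most `C x ^ (1 - δ)` positive integers
`n ≤ x` fail to satisfy `x ^ (-ε) ≤ T^i(n) / (n (√3/2) ^ i) ≤ x ^ ε` for all integers
`0 ≤ i ≤ (2 / log (4/3)) log x`. -/
theorem result :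
    ∀ ε : ℝ, 0 < ε → ∃ δ : ℝ, 0 < δ ∧ ∃ C : ℝ, 0 < C ∧ ∀ x : ℝ, 1 ≤ x →
      ({n : ℕ | 1 ≤ n ∧ (n : ℝ) ≤ x ∧ ¬ ∀ i : ℕ,
        (i : ℝ) ≤ 2 / Real.log (4 / 3) * Real.log x →
          (n : ℝ) * (Real.sqrt 3 / 2) ^ i * x ^ (-ε) ≤
            (((fun m : ℕ => if m % 2 = 0 then m / 2 else (3 * m + 1) / 2)^[i] n : ℕ) : ℝ) ∧
          (((fun m : ℕ => if m % 2 = 0 then m / 2 else (3 * m + 1) / 2)^[i] n : ℕ) : ℝ) ≤
            (n : ℝ) * (Real.sqrt 3 / 2) ^ i * x ^ ε}.ncard : ℝ) ≤ C * x ^ (1 - δ) := by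
  classical
  intro ε hε
  obtain ⟨δ, hδ, C, hC, h⟩ := Pool.Agent.Syr66.trajectory_law ε hε
  refine ⟨δ, hδ, C, hC, fun x hx => ?_⟩
  have h2 := h x hx
  refine le_trans (le_of_eq ?_) h2
  have hT : (fun m : ℕ => if m % 2 = 0 then m / 2 else (3 * m + 1) / 2) = Pool.Agent.Syr66.T := by
    funext m; rfl
  rw [hT]
  congr 1
  rw [← Set.ncard_coe_finset]
  congr 1
  ext n
  simp only [Set.mem_ofPred_eq, Finset.coe_filter, Finset.mem_Icc]
  rw [Nat.le_floor_iff (by linarith)]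
  tauto

end Pool.Agent.Results.MP_529d88_nt.TrajectoryLaw
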